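import Pool.Agent.N430.BP.FF3

/-!
# The original products of Birch and Swinnerton-Dyer for almost all elliptic curves over `𝔽_q(t)`

Let `F` be a finite field of odd characteristic with `q` elements.  For `A, B ∈ F[t]` let `E_{A,B}` be
the curve `y² = x³ + A x + B` over `F(t)`.  The conjecture of Birch and Swinnerton-Dyer in its original
form predicts the growth of the product of the numbers `#E(F[t] ⧸ P) / q^(deg P)` over the monic
irreducible polynomials `P` of degree at most `x`, the inverse of the truncated Euler product at the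
central point `s = 1`, in terms of the rank of `E(F(t))`.

The theorem: let `(A, B)` run over an arbitrary ball `deg (A - A₀) < N`, `deg (B - B₀) < N`.  Then for
almost all members of the ball this product is `x^(1/2 + o(1))`, for *all* `x` up to a constant times
`N`, with an explicit error term and with a bound for the number of the exceptions; all constants are
independent of the field `F`, of the ball and of `N`.
-/

set_option autoImplicit false

namespace Pool.Agent.Results.MP_81dc49_nt.OriginalProductsFunctionFields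

open Polynomial

/-- The affine points of the curve `y² = x³ + A x + B` over the residue ring `F[t] ⧸ P`. -/
def affinePoints {F : Type} [Field F] (P A B : F[X]) :
    Set ((F[X] ⧸ Ideal.span {P}) × (F[X] ⧸ Ideal.span {P})) :=
  {z | z.2 ^ 2 = z.1 ^ 3 + Ideal.Quotient.mk (Ideal.span {P}) A * z.1 +
      Ideal.Quotient.mk (Ideal.span {P}) B}

/-- The number of the points of the projective curve `y² = x³ + A x + B` over the residue field of the
irreducible polynomial `P`: the affine points and one point at infinity. -/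
noncomputable def pointCount {F : Type} [Field F] (P A B : F[X]) : ℕ :=
  (affinePoints P A B).ncard + 1

/-- The monic irreducible polynomials of degree at most `x`. -/
def primesUpTo (F : Type) [Field F] (x : ℕ) : Set F[X] :=
  {P | P.Monic ∧ Irreducible P ∧ P.natDegree ≤ x}

/-- The product of the numbers `#E(F[t] ⧸ P) / q^(deg P)` over the monic irreducible polynomials of
degree at most `x`. -/
noncomputable def originalProduct {F : Type} [Field F] (A B : F[X]) (x : ℕ) : ℝ :=
  ∏ᶠ P ∈ primesUpTo F x, ((pointCount P A B : ℝ) / (Nat.card F : ℝ) ^ P.natDegree)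

/-- The pairs `(A, B)` in the ball with centre `(A₀, B₀)` and radius `N` for which the product differs
from `x^(1/2)` by more than the factor `exp (l (log x)^(1/2) (1 + log log x)^ε)`, for some `x` with
`3 ≤ x` and `k x ≤ N`. -/
def exceptional {F : Type} [Field F] (N k : ℕ) (A₀ B₀ : F[X]) (ε l : ℝ) : Set (F[X] × F[X]) :=
  {v | ((v.1 - A₀).degree < N ∧ (v.2 - B₀).degree < N) ∧ ∃ x : ℕ, 3 ≤ x ∧ k * x ≤ N ∧
    l * Real.log x ^ (1 / 2 : ℝ) * (1 + Real.log (Real.log x)) ^ ε <
      |Real.log (originalProduct v.1 v.2 x) - 1 / 2 * Real.log x|}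

/-- **The original products of Birch and Swinnerton-Dyer for almost all elliptic curves over rational
function fields.** -/
theorem result :
    -- the definitions make sense
    (∀ (F : Type) [Field F] [Finite F],
      (∀ x : ℕ, (primesUpTo F x).Finite) ∧
      (∀ (A B : F[X]) (x : ℕ), 0 < originalProduct A B x) ∧
      (∀ P A B : F[X], P.Monic → Irreducible P →
        Nat.card (F[X] ⧸ Ideal.span {P}) = Nat.card F ^ P.natDegree ∧ (affinePoints P A B).Finite)) ∧
    -- the law, with constants which do not depend on the field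
    ∀ ε α : ℝ, 0 < ε → 0 < α → ∃ (k : ℕ) (C : ℝ), 0 < k ∧
      ∀ (F : Type) [Field F] [Finite F], ringChar F ≠ 2 →
      ∀ (N : ℕ) (A₀ B₀ : F[X]) (l : ℝ), 1 ≤ l →
        ((exceptional N k A₀ B₀ ε l).ncard : ℝ) ≤ C * l ^ (-α) * (Nat.card F : ℝ) ^ (2 * N) := by
  classical
  have hfac : ∀ (F : Type) [Field F] [Finite F] (P A B : F[X]),
      0 < (pointCount P A B : ℝ) / (Nat.card F : ℝ) ^ P.natDegree := by
    intro F _ _ P A B
    have h1 : 0 < pointCount P A B := Nat.succ_pos _
    have h2 : 0 < Nat.card F := Nat.card_pos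
    positivity
  have hset : ∀ (F : Type) [Field F] [Fintype F] (x : ℕ), primesUpTo F x =
      (((Finset.Ico 0 (x + 1)).biUnion fun n => Pool.Agent.N430.BP.FF.IR F n : Finset F[X]) :
        Set F[X]) := by
    intro F _ _ x
    ext P
    rw [Finset.mem_coe, Finset.mem_biUnion]
    constructor
    · rintro ⟨h1, h2, h3⟩
      exact ⟨P.natDegree, by rw [Finset.mem_Ico]; omega, Pool.Agent.N430.BP.FF.mem_IR.2 ⟨h1, h2, rfl⟩⟩
    · rintro ⟨n, hn, h⟩
      obtain ⟨h1, h2, h3⟩ := Pool.Agent.N430.BP.FF.mem_IR.1 h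
      rw [Finset.mem_Ico] at hn
      exact ⟨h1, h2, by omega⟩
  have hprod : ∀ (F : Type) [Field F] [Fintype F] (A B : F[X]) (x : ℕ), originalProduct A B x =
      ∏ n ∈ Finset.Ico 0 (x + 1), ∏ P ∈ Pool.Agent.N430.BP.FF.IR F n,
        ((pointCount P A B : ℝ) / (Nat.card F : ℝ) ^ P.natDegree) := by
    intro F _ _ A B x
    unfold originalProduct
    rw [hset F x, finprod_mem_coe_finset, Finset.prod_biUnion]
    intro n _ m _ hnm
    rw [Function.onFun, Finset.disjoint_left]
    intro P h1 h2
    exact hnm ((Pool.Agent.N430.BP.FF.mem_IR.1 h1).2.2.symm.trans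
      (Pool.Agent.N430.BP.FF.mem_IR.1 h2).2.2)
  have hlog : ∀ (F : Type) [Field F] [Fintype F] (A B : F[X]) (x : ℕ),
      Real.log (originalProduct A B x) = Pool.Agent.N430.BP.FF.LF F A B x := by
    intro F _ _ A B x
    have hN : Nat.card F = Fintype.card F := Nat.card_eq_fintype_card
    rw [hprod, Real.log_prod fun n _ => (Finset.prod_pos fun P _ => hfac F P A B).ne']
    unfold Pool.Agent.N430.BP.FF.LF
    refine Finset.sum_congr rfl fun n _ => ?_
    rw [Real.log_prod fun P _ => (hfac F P A B).ne']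
    refine Finset.sum_congr rfl fun P _ => ?_
    rw [hN]
    rfl
  refine ⟨?_, ?_⟩
  · intro F _ _
    have : Fintype F := Fintype.ofFinite F
    refine ⟨fun x => ?_, fun A B x => ?_, fun P A B hm hP => ⟨?_, ?_⟩⟩
    · rw [hset F x]
      exact Finset.finite_toSet _
    · rw [hprod]
      exact Finset.prod_pos fun n _ => Finset.prod_pos fun P _ => hfac F P A B
    · rw [Nat.card_eq_fintype_card (α := F)]
      exact Pool.Agent.N430.BP.FF.card_Rs hm
    · have := Pool.Agent.N430.BP.FF.fin_quot hm
      exact Set.toFinite _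
  intro ε α hε hα
  refine ⟨2 * Pool.Agent.N430.BP.qq' ε α + 1, Pool.Agent.N430.BP.CC ε α
    (3 * (2 * Pool.Agent.N430.BP.qq' ε α).factorial) (2 * 131200 ^ 2) 262149,
    Nat.succ_pos _, fun F _ _ h2 N A₀ B₀ l hl => ?_⟩
  have : Fintype F := Fintype.ofFinite F
  have hmain := Pool.Agent.N430.BP.FF.main_ff F h2 hε hα N A₀ B₀ hl
  have hN : Nat.card F = Fintype.card F := Nat.card_eq_fintype_card
  rw [hN]
  refine le_trans ?_ hmain
  unfold exceptional
  simp only [hlog]
  set Exc := (Finset.univ.filter fun v : Pool.Agent.N430.BP.FF.VV F N =>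
    ∃ x : ℕ, 3 ≤ x ∧ (2 * Pool.Agent.N430.BP.qq' ε α + 1) * x ≤ N ∧
        l * Real.log x ^ (1 / 2 : ℝ) * (1 + Real.log (Real.log x)) ^ ε <
          |Pool.Agent.N430.BP.FF.LF F (A₀ + (v.1 : F[X])) (B₀ + (v.2 : F[X])) x -
            1 / 2 * Real.log x|) with hExc
  have hsub : {v : F[X] × F[X] | ((v.1 - A₀).degree < N ∧ (v.2 - B₀).degree < N) ∧
          ∃ x : ℕ, 3 ≤ x ∧ (2 * Pool.Agent.N430.BP.qq' ε α + 1) * x ≤ N ∧
            l * Real.log x ^ (1 / 2 : ℝ) * (1 + Real.log (Real.log x)) ^ ε <
              |Pool.Agent.N430.BP.FF.LF F v.1 v.2 x - 1 / 2 * Real.log x|} ⊆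
      ((Exc.image fun v => (A₀ + (v.1 : F[X]), B₀ + (v.2 : F[X])) : Finset (F[X] × F[X])) :
        Set (F[X] × F[X])) := by
    rintro ⟨A, B⟩ ⟨⟨h3, h4⟩, x, hx3, hxN, hx⟩
    rw [Finset.coe_image, Set.mem_image]
    have e1 : A₀ + (A - A₀) = A := by ring
    have e2 : B₀ + (B - B₀) = B := by ring
    refine ⟨(⟨A - A₀, mem_degreeLT.2 h3⟩, ⟨B - B₀, mem_degreeLT.2 h4⟩), ?_, ?_⟩
    · rw [Finset.mem_coe, hExc, Finset.mem_filter]
      refine ⟨Finset.mem_univ _, x, hx3, hxN, ?_⟩
      simp only [e1, e2]
      exact hx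
    · simp only [e1, e2]
  have h5 := Set.ncard_le_ncard hsub (Finset.finite_toSet _)
  rw [Set.ncard_coe_finset] at h5
  have h6 := h5.trans Finset.card_image_le
  exact_mod_cast h6

end Pool.Agent.Results.MP_81dc49_nt.OriginalProductsFunctionFields
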