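import Mathlib
import Pool.Agent.N870.SQ.Pen

/-!
# Ranks over number fields in one-parameter families of elliptic curves along the integer parts of
smoothly varying functions

`W_t : y² = x³ + A(t) x + B(t) = (x - e₁(t)) (x - e₂(t)) (x - e₃(t))` with polynomials `e_i` such
that `e₂ - e₁ = D₀ u₀`, `e₃ - e₁ = D₀ u₁`, `e₂ - e₃ = D₀ u₂`, where `u_k` is a constant times
a product of `n_k` irreducible polynomials, these `n₀ + n₁ + n₂` irreducible polynomials being
pairwise different, and `D₀` is any nonzero polynomial not divisible by one of them. The curve `W_t`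
is considered over the field `F_t = ℚ(√D₁(t), ..., √D_r(t))`, for arbitrary nonzero polynomials
`D_i` not divisible by one of these polynomials. For a set `T` of indices let `s_k(T)` be the number
of the irreducible factors of `u_k` at which the twist of the family by `∏_{i ∈ T} D_i` has split
multiplicative reduction, and assume that `2 n_k + s_k(T) ≤ n₀ + n₁ + n₂` for all `k` and `T`.

The argument `t` runs through the integer parts `⌊φ(n)⌋` for a smoothly varying function `φ` of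
non-integral index `c > 0`, for instance `φ(x) = x ^ c`: a sparse sequence, with about `x ^ (1 / c)`
members up to `x` for `c > 1`. Let `G₁, ..., G_g` be irreducible polynomials without a fixed prime
divisor, prime to the `D_i` and the `u_k` (`g = 0` is allowed). There are at least
`κ X / (log X) ^ g` integers `n ≤ X` for which all the prime factors of the values `G_i(⌊φ(n)⌋)` are
larger than `X ^ δ`, and the average of
`2 ^ ((rank W_t(F_t) + corank of the 2-primary part of Ш(W_t / F_t)) / 2 ^ r)`, `t = ⌊φ(n)⌋`, over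
these `n` is bounded; so at most the proportion `C / 2 ^ (q / 2 ^ r)` of these curves has rank `≥ q`
over `F_t`. If the `D_i` are constants, `F = F_t` is one fixed number field, any given multiquadratic
field.

(The theorem was written for `MP_78d38b_nt` by helper870 and moved here.)
-/

set_option autoImplicit false

namespace Pool.Agent.Results.MP_81dc49_nt.PencilsAlongSequences

open Finset Polynomial Filter Topology

open Pool.Agent.TH841.NF.D (HasDiv crk rk)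

/-- `φ` is smoothly varying of index `c`: it is infinitely differentiable and positive for large
arguments, and `t ^ m φ⁽ᵐ⁾(t) / φ(t) → c (c - 1) ... (c - m + 1)` for every `m`. -/
def SmoothlyVarying (c : ℝ) (φ : ℝ → ℝ) : Prop :=
  (∃ t₀ : ℝ, ∀ t > t₀, ContDiffAt ℝ ((⊤ : ℕ∞) : WithTop ℕ∞) φ t ∧ 0 < φ t) ∧
  ∀ m : ℕ, Tendsto (fun t => t ^ m * iteratedDeriv m φ t / φ t) atTop (𝓝 (∏ i ∈ range m, (c - i)))

/-- the powers `t ^ c` are smoothly varying -/
theorem smoothlyVarying_rpow (c : ℝ) : SmoothlyVarying c (fun t => t ^ c) := by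
  refine ⟨⟨0, fun t ht => ⟨contDiffAt_id.rpow_const_of_ne ht.ne', Real.rpow_pos_of_pos ht _⟩⟩,
    fun m => ?_⟩
  refine tendsto_const_nhds.congr' ?_
  filter_upwards [eventually_gt_atTop (0 : ℝ)] with t ht
  rw [iteratedDeriv_eq_iterate, Real.iter_deriv_rpow_const, descPochhammer_eval_eq_prod_range,
    Real.rpow_sub ht, Real.rpow_natCast]
  have h1 : t ^ c ≠ 0 := (Real.rpow_pos_of_pos ht _).ne'
  field_simp

/-- the curve `y² = x³ + A x + B` over `F` -/
def EF (A B : ℤ) (F : Type) [Field F] : WeierstrassCurve F := ⟨0, 0, 0, (A : F), (B : F)⟩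

/-- the number field `F` is generated by square roots of the integers `d i` -/
def Gen (F : Type) [Field F] [NumberField F] {r : ℕ} (d : Fin r → ℤ) : Prop :=
  ∃ x : Fin r → F, (∀ i, x i ^ 2 = (d i : F)) ∧
    IntermediateField.adjoin ℚ (Set.range x) = ⊤

/-- `u_k = a_k ∏ f_{k,i}` -/
noncomputable def u {n : Fin 3 → ℕ} (a : Fin 3 → ℤ) (f : ∀ k : Fin 3, Fin (n k) → ℤ[X])
    (k : Fin 3) : ℤ[X] := C (a k) * ∏ i, f k i

/-- `v` is a square modulo `f`, over the rationals -/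
def SqMod (f v : ℤ[X]) : Prop := ∃ q : ℚ[X], f.map (Int.castRingHom ℚ) ∣
  (q ^ 2 - v.map (Int.castRingHom ℚ))

/-- modulo a factor `f` of `u_k`, the curve `y² = x (x - D u₀) (x - D u₁)` has a node whose tangent
directions are the square roots of `v_k`; so the reduction at `f` is split if and only if `v_k` is a
square modulo `f` -/
noncomputable def v {n : Fin 3 → ℕ} (D : ℤ[X]) (a : Fin 3 → ℤ)
    (f : ∀ k : Fin 3, Fin (n k) → ℤ[X]) : Fin 3 → ℤ[X] :=
  ![-(D * u a f 1), -(D * u a f 0), D * u a f 0]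

open Classical in
/-- the number of the factors of `u_k` at which `y² = x (x - D u₀) (x - D u₁)` has split
multiplicative reduction -/
noncomputable def s {n : Fin 3 → ℕ} (D : ℤ[X]) (a : Fin 3 → ℤ)
    (f : ∀ k : Fin 3, Fin (n k) → ℤ[X]) (k : Fin 3) : ℕ :=
  (univ.filter (fun i => SqMod (f k i) (v D a f k))).card

open Classical in
/-- the integers `1 ≤ m ≤ X` for which `⌊φ(m)⌋` is not a zero of one of the polynomials, and all the
prime factors of the integers `G_i(⌊φ(m)⌋)` are larger than `y` -/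
noncomputable def Par (φ : ℝ → ℝ) {n : Fin 3 → ℕ} {r g : ℕ} (a : Fin 3 → ℤ)
    (f : ∀ k : Fin 3, Fin (n k) → ℤ[X]) (D₀ : ℤ[X]) (D : Fin r → ℤ[X]) (G : Fin g → ℤ[X])
    (y : ℝ) (X : ℕ) : Finset ℕ :=
  (Icc 1 X).filter (fun m : ℕ => ((∀ k, (D₀ * u a f k).eval ⌊φ m⌋ ≠ 0) ∧
    ∀ i, (D i).eval ⌊φ m⌋ ≠ 0) ∧
    ∀ i, ∀ p : ℕ, p.Prime → (p : ℤ) ∣ (G i).eval ⌊φ m⌋ → y < p)

open Classical in
/-- **Theorem.** Let `φ` be a smoothly varying function of index `c > 0`, not an integer. Let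
`u_k = a_k ∏_{i < n_k} f_{k,i}`, `k = 0, 1, 2`, be polynomials with integer
coefficients with `u₀ - u₁ = u₂`, where `a_k ≠ 0` and the `n₀ + n₁ + n₂` polynomials `f_{k,i}` are
irreducible of positive degree and pairwise non-associated, let `D₀`, ..., `D_r` be nonzero
polynomials with integer coefficients not divisible by any `f_{k,i}`, and `A`, `B`, `e₁`, `e₂`, `e₃`
polynomials with integer coefficients such that `x³ + A x + B = (x - e₁) (x - e₂) (x - e₃)`,
`e₂ - e₁ = D₀ u₀` and `e₃ - e₁ = D₀ u₁`. Assume that `2 n_k + s_k(T) ≤ n₀ + n₁ + n₂` for all `k` and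
all `T ⊆ {1, ..., r}`, where `s_k(T)` is the number of the `i` such that the twist by
`D₀ ∏_{l ∈ T} D_l` of `y² = x (x - u₀) (x - u₁)` has split multiplicative reduction at `f_{k,i}`. Let
`G₁, ..., G_g` be pairwise non-associated irreducible polynomials of positive degree, without a fixed
prime divisor, that divide none of `D₀`, ..., `D_r` and are not associated to any `f_{k,i}`. There
are `δ > 0`, `κ > 0`, `C` and `X₀` such that for `X ≥ X₀` and the set `P` of the `m ≤ X`, with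
`t = ⌊φ(m)⌋` not a zero of the polynomials, for which all the prime factors of the `G_i(t)` are larger
than `X ^ δ`: the set `P` has at least `κ X / (log X) ^ g` elements, and with
`F m = ℚ(√D₁(t), ..., √D_r(t))`, `W m : y² = x³ + A(t) x + B(t)` over `F m` and
`ρ m = rank W_m(F_m) + corank Ш(W_m / F_m)[2^∞]` the average of `2 ^ (ρ m / 2 ^ r)` over `P` is at
most `C`, and at most the proportion `C / 2 ^ (q / 2 ^ r)` of the `m` in `P` have `ρ m ≥ q`. -/
theorem result (c : ℝ) (hc : 0 < c) (hcn : ∀ m : ℕ, c ≠ m) (φ : ℝ → ℝ) (hφ : SmoothlyVarying c φ)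
    (n : Fin 3 → ℕ) (r : ℕ) (a : Fin 3 → ℤ) (f : ∀ k : Fin 3, Fin (n k) → ℤ[X])
    (ha : ∀ k, a k ≠ 0) (hf : ∀ k i, Irreducible (f k i) ∧ 0 < (f k i).natDegree)
    (hf' : ∀ k i l j, (⟨k, i⟩ : Σ k : Fin 3, Fin (n k)) ≠ ⟨l, j⟩ → ¬ Associated (f k i) (f l j))
    (hu : u a f 0 - u a f 1 = u a f 2)
    (D₀ : ℤ[X]) (hD₀ : D₀ ≠ 0) (hDf₀ : ∀ k i, ¬ f k i ∣ D₀)
    (D : Fin r → ℤ[X]) (hD : ∀ l, D l ≠ 0) (hDf : ∀ l k i, ¬ f k i ∣ D l)
    (hs : ∀ (T : Finset (Fin r)) (k : Fin 3),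
      2 * n k + s (D₀ * ∏ i ∈ T, D i) a f k ≤ n 0 + n 1 + n 2)
    (A B e₁ e₂ e₃ : ℤ[X])
    (he : ∀ t x : ℤ, x ^ 3 + A.eval t * x + B.eval t =
      (x - e₁.eval t) * (x - e₂.eval t) * (x - e₃.eval t))
    (h12 : e₂ - e₁ = D₀ * u a f 0) (h13 : e₃ - e₁ = D₀ * u a f 1)
    (g : ℕ) (G : Fin g → ℤ[X])
    (hG : ∀ i, Irreducible (G i) ∧ 0 < (G i).natDegree)
    (hG' : ∀ i j, i ≠ j → ¬ Associated (G i) (G j))
    (hfix : ∀ p : ℕ, p.Prime → ∃ m : ℕ, ∀ i, ¬ (p : ℤ) ∣ (G i).eval (m : ℤ))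
    (hGf : ∀ i k j, ¬ Associated (f k j) (G i)) (hGD₀ : ∀ i, ¬ G i ∣ D₀)
    (hGD : ∀ l i, ¬ G i ∣ D l) :
    ∃ δ : ℝ, 0 < δ ∧ ∃ κ : ℝ, 0 < κ ∧ ∃ (C : ℝ) (X₀ : ℕ), ∀ X : ℕ, X₀ ≤ X →
      κ * (X / (Real.log X) ^ g) ≤ ((Par φ a f D₀ D G ((X : ℝ) ^ δ) X).card : ℝ) ∧
      ∀ (F : ℕ → Type) [∀ m, Field (F m)] [∀ m, NumberField (F m)],
      (∀ m ∈ Par φ a f D₀ D G ((X : ℝ) ^ δ) X, Gen (F m) (fun i => (D i).eval ⌊φ m⌋)) →
      ∀ W : ∀ m, WeierstrassCurve (F m),
      (∀ m, W m = EF (A.eval ⌊φ m⌋) (B.eval ⌊φ m⌋) (F m)) →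
      (∀ m ∈ Par φ a f D₀ D G ((X : ℝ) ^ δ) X, BddAbove {q | HasDiv (W m) q}) ∧
      ∑ m ∈ Par φ a f D₀ D G ((X : ℝ) ^ δ) X,
        ((2 : ℝ) ^ (rk (W m) + crk (W m))) ^ ((1 : ℝ) / 2 ^ r) ≤
        C * (Par φ a f D₀ D G ((X : ℝ) ^ δ) X).card ∧
      ∀ q : ℕ, (((Par φ a f D₀ D G ((X : ℝ) ^ δ) X).filter
        (fun m => q ≤ rk (W m) + crk (W m))).card : ℝ) ≤
        C * (Par φ a f D₀ D G ((X : ℝ) ^ δ) X).card / ((2 : ℝ) ^ q) ^ ((1 : ℝ) / 2 ^ r) := by
  have hirr : Pool.Agent.TH841.PT.Irr (Pool.Agent.TH841.TR.fp f) :=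
    ⟨fun x => (hf x.1 x.2).1, fun x => (hf x.1 x.2).2, fun x y hxy => hf' x.1 x.2 y.1 y.2 hxy⟩
  have hG1 : Pool.Agent.TH841.PT.Irr G := ⟨fun i => (hG i).1, fun i => (hG i).2, hG'⟩
  have hB : ∀ T : Finset (Fin r), Pool.Agent.TH841.TR.Bal (D₀ * ∏ i ∈ T, D i) a f := fun T =>
    Pool.Agent.TH841.TR.bal_of (v := v (D₀ * ∏ i ∈ T, D i) a f) rfl rfl rfl (hs T)
  have h := Pool.Agent.N870.SQ.pen_fl (Pool.Agent.N870.SQ.sv_of c hc hcn φ hφ) hG1 hfix a f ha hirr
    hu hGf r D₀ hD₀ hDf₀ hGD₀ D hD hDf hGD A B e₁ e₂ e₃ he h12 h13 hB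
  simp only [iteratedDeriv_zero] at h
  obtain ⟨δ, hδ, κ, hκ, C, X₀, h2⟩ := h
  exact ⟨δ, hδ, κ, hκ, C, X₀, fun X hX => h2 X hX _ rfl⟩

end Pool.Agent.Results.MP_81dc49_nt.PencilsAlongSequences
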