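import Pool.Agent.N430.RT.A5

/-!
# The tail of the distribution of the analytic ranks over `𝔽_q(t)`

Let `F` be a finite field of odd characteristic with `q` elements.  For the elliptic curves
`E : y² = x³ + A x + B`, `A, B ∈ F[t]`, `deg A < 4 d`, `deg B < 6 d`, the proportion of the pairs `(A, B)`
for which the analytic rank of `E` over `F(t)` (hence also the rank of `E(F(t))`) is at least `R` is at
most `C R^(-c R)`, with absolute constants `c, C > 0`: for ALL `q`, ALL `d` and ALL `R`.

More generally, for the hyperelliptic curves `y² = f(x) + A x + B` of genus `g`, `f` any monic polynomial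
in `x` of degree `2 g + 1` over `F[t]`, the number of reciprocal zeros of the `L`-function in a disc
around ANY point `q z`, `|z| = 1`, of the circle, of the size of the mean distance of the zeros, has the
same tail.

The cohomological interpretation of the `L`-functions (Grothendieck, Deligne, Weil) enters through the
structure `FrobeniusData` below: it lists the properties of the eigenvalues of Frobenius which are used.
-/

set_option autoImplicit false

namespace Pool.Agent.Results.MP_81dc49_nt.TailOfRanks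

open Polynomial

/-- The affine points of the curve `y² = f(x) + A x + B` over the residue ring `F[t] ⧸ P`. -/
def affinePoints {F : Type} [Field F] (f : F[X][X]) (A B P : F[X]) :
    Set ((F[X] ⧸ Ideal.span {P}) × (F[X] ⧸ Ideal.span {P})) :=
  {z | z.2 ^ 2 = (f.map (Ideal.Quotient.mk (Ideal.span {P}))).eval z.1 +
    Ideal.Quotient.mk (Ideal.span {P}) A * z.1 + Ideal.Quotient.mk (Ideal.span {P}) B}

/-- The trace of Frobenius of the curve `y² = f(x) + A x + B` at the place `P`: for `f` monic of odd
degree there is one point at infinity, and the trace is `q_P + 1` minus the number of all points. -/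
noncomputable def frobeniusTrace {F : Type} [Field F] (f : F[X][X]) (A B P : F[X]) : ℝ :=
  (Nat.card F : ℝ) ^ P.natDegree - (affinePoints f A B P).ncard

/-- The monic irreducible polynomials of degree `e` outside a finite set. -/
def goodPlaces {F : Type} [Field F] (bad : Finset F[X]) (e : ℕ) : Set F[X] :=
  {P | P.Monic ∧ Irreducible P ∧ P.natDegree = e ∧ P ∉ bad}

/-- The eigenvalues of Frobenius attached to the curve `C : y² = f(x) + A x + B` over `F(t)`, `f` monic of
degree `2 g + 1`. The product of the inverses of the local polynomials of `C` over the finite places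
outside `bad` (the primes of bad reduction) is the polynomial `∏ (1 - α i T) ∏ (1 - β j T)`, where the
`α i` are the reciprocal zeros of the `L`-function (eigenvalues of weight two) and the `β j` come from
the remaining places. The logarithmic derivative of this identity is the trace formula `formula`. -/
structure FrobeniusData {F : Type} [Field F] (f : F[X][X]) (A B : F[X]) (g : ℕ) (K : ℝ) where
  /-- the number of the eigenvalues of weight two -/
  D : ℕ
  /-- the eigenvalues of weight two: the reciprocal zeros of the `L`-function -/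
  α : Fin D → ℂ
  /-- the number of the other eigenvalues -/
  D' : ℕ
  /-- the other eigenvalues -/
  β : Fin D' → ℂ
  /-- the places of bad reduction -/
  bad : Finset F[X]
  /-- the eigenvalues of Frobenius at the good places -/
  loc : F[X] → Fin (2 * g) → ℂ
  size : (D : ℝ) ≤ K ∧ (D' : ℝ) ≤ K ∧ ∑ P ∈ bad, (P.natDegree : ℝ) ≤ K
  norm_α : ∀ i, ‖α i‖ = Nat.card F
  norm_β : ∀ j, ‖β j‖ ≤ √(Nat.card F)
  norm_loc : ∀ P, P.Monic → Irreducible P → P ∉ bad → ∀ i, ‖loc P i‖ ≤ √(Nat.card F) ^ P.natDegree
  sum_loc : ∀ P, P.Monic → Irreducible P → P ∉ bad → ∑ i, loc P i = (frobeniusTrace f A B P : ℂ)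
  formula : ∀ n : ℕ, 1 ≤ n → ∑ i, α i ^ n + ∑ j, β j ^ n =
    -∑ e ∈ n.divisors, ∑ᶠ P ∈ goodPlaces bad e, (e : ℂ) * ∑ i, loc P i ^ (n / e)

/-- The pairs `(A, B)` of polynomials of degree less than `N` such that at least `R` reciprocal zeros of
the `L`-function of `y² = f(x) + A x + B` lie in the disc with centre `q z` and radius `q / N`. -/
def manyZeros {F : Type} [Field F] (f : F[X][X]) (g : ℕ) (κ : ℝ) (N : ℕ) (z : ℂ) (R : ℕ) :
    Set (F[X] × F[X]) :=
  {v | v.1.degree < N ∧ v.2.degree < N ∧ ∃ E : FrobeniusData f v.1 v.2 g (κ * N),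
    R ≤ {i | ‖E.α i / Nat.card F - z‖ ≤ 1 / N}.ncard}

/-- The pairs `(A, B)`, `deg A < 4 d`, `deg B < 6 d`, such that `q` is a reciprocal zero of multiplicity at
least `R` of the `L`-function of `y² = x³ + A x + B` over `F(t)`, that is: the analytic rank is at least
`R`. -/
def largeRank (F : Type) [Field F] (d R : ℕ) : Set (F[X] × F[X]) :=
  {v | v.1.degree < 4 * d ∧ v.2.degree < 6 * d ∧
    ∃ E : FrobeniusData (X ^ 3 : F[X][X]) v.1 v.2 1 (28 * d), R ≤ {i | E.α i = Nat.card F}.ncard}

/-- the translation of the data -/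
noncomputable def FrobeniusData.toED {F : Type} [Field F] [Fintype F] {f : F[X][X]} {A B : F[X]} {g : ℕ}
    {K : ℝ} (E : FrobeniusData f A B g K) : Pool.Agent.N430.RT.ED f A B (2 * g) K where
  D := E.D
  α := E.α
  D' := E.D'
  β := E.β
  bad := E.bad
  loc := E.loc
  hD := E.size.1
  hD' := E.size.2.1
  hbad := E.size.2.2
  hα := fun i => by rw [E.norm_α i, Nat.card_eq_fintype_card]
  hβ := fun j => by
    have := E.norm_β j
    rwa [Nat.card_eq_fintype_card] at this
  hloc := fun P h1 h2 h3 i => by
    have := E.norm_loc P h1 h2 h3 i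
    rwa [Nat.card_eq_fintype_card] at this
  htr := fun P h1 h2 h3 => by
    rw [E.sum_loc P h1 h2 h3]
    unfold frobeniusTrace
    rw [Nat.card_eq_fintype_card]
    rfl
  hform := fun n hn => by
    classical
    rw [E.formula n hn]
    congr 1
    refine Finset.sum_congr rfl fun e _ => ?_
    have h1 : goodPlaces E.bad e =
        (((Pool.Agent.N430.BP.FF.IR F e).filter (· ∉ E.bad) : Finset F[X]) : Set F[X]) := by
      ext P
      unfold goodPlaces
      rw [Finset.mem_coe, Finset.mem_filter, Pool.Agent.N430.BP.FF.mem_IR]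
      constructor
      · rintro ⟨a, b, c, d⟩
        exact ⟨⟨a, b, c⟩, d⟩
      · rintro ⟨⟨a, b, c⟩, d⟩
        exact ⟨a, b, c, d⟩
    rw [h1, finsum_mem_coe_finset]

/-- **The tail of the distribution of the zeros near a point, and of the analytic ranks.** -/
theorem result :
    (∀ g : ℕ, 1 ≤ g → ∀ κ : ℝ, 1 ≤ κ → ∃ c C : ℝ, 0 < c ∧ 0 < C ∧
      ∀ (F : Type) [Field F] [Finite F], ringChar F ≠ 2 → ∀ N : ℕ, 1 ≤ N →
      ∀ f : F[X][X], f.Monic → f.natDegree = 2 * g + 1 → ∀ z : ℂ, ‖z‖ = 1 → ∀ R : ℕ, 1 ≤ R →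
        (manyZeros f g κ N z R).Finite ∧ ((manyZeros f g κ N z R).ncard : ℝ) ≤
          C * (R : ℝ) ^ (-(c * R)) * (Nat.card F : ℝ) ^ (2 * N)) ∧
    ∃ c C : ℝ, 0 < c ∧ 0 < C ∧
      ∀ (F : Type) [Field F] [Finite F], ringChar F ≠ 2 → ∀ d : ℕ, 1 ≤ d → ∀ R : ℕ, 1 ≤ R →
        (largeRank F d R).Finite ∧ ((largeRank F d R).ncard : ℝ) ≤
          C * (R : ℝ) ^ (-(c * R)) * (Nat.card F : ℝ) ^ (10 * d) := by
  classical
  -- the general statement, for `Fintype`
  have gen : ∀ (F : Type) [Field F] [Fintype F] (f : F[X][X]) (g : ℕ) (κ : ℝ) (N : ℕ) (z : ℂ) (R : ℕ),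
      manyZeros f g κ N z R ⊆
        (((Pool.Agent.N430.RT.many F N f (2 * g) κ z R).image fun v => ((v.1 : F[X]), (v.2 : F[X])) :
          Finset (F[X] × F[X])) : Set (F[X] × F[X])) := by
    intro F _ _ f g κ N z R
    rintro ⟨A, B⟩ ⟨h3, h4, E, hE⟩
    rw [Finset.coe_image, Set.mem_image]
    refine ⟨(⟨A, mem_degreeLT.2 h3⟩, ⟨B, mem_degreeLT.2 h4⟩), ?_, rfl⟩
    rw [Finset.mem_coe]
    unfold Pool.Agent.N430.RT.many
    rw [Finset.mem_filter]
    refine ⟨Finset.mem_univ _, E.toED, Finset.univ.filter fun i => ‖E.α i / Nat.card F - z‖ ≤ 1 / N,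
      fun i hi => ?_, ?_⟩
    · have := (Finset.mem_filter.1 hi).2
      rwa [Nat.card_eq_fintype_card] at this
    · have e : {i | ‖E.α i / Nat.card F - z‖ ≤ 1 / N} = ((Finset.univ.filter fun i =>
          ‖E.α i / Nat.card F - z‖ ≤ 1 / N : Finset (Fin E.D)) : Set (Fin E.D)) := by
        ext i
        simp
      rw [e, Set.ncard_coe_finset] at hE
      exact hE
  refine ⟨?_, ?_⟩
  · intro g hg κ hκ
    obtain ⟨c, C, hc, hC, h⟩ := Pool.Agent.N430.RT.main_rt (2 * g + 1) (2 * g) (by omega)
      ⟨g, rfl⟩ (by omega) hκ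
    refine ⟨c, C, hc, hC, fun F _ _ h2 N hN f hf hfd z hz R hR => ?_⟩
    have : Fintype F := Fintype.ofFinite F
    have hs := gen F f g κ N z R
    refine ⟨(Finset.finite_toSet _).subset hs, ?_⟩
    have h5 := Set.ncard_le_ncard hs (Finset.finite_toSet _)
    rw [Set.ncard_coe_finset] at h5
    have h6 := h5.trans Finset.card_image_le
    have h7 := h F h2 N hN f hf hfd z hz R hR
    rw [Nat.card_eq_fintype_card]
    refine le_trans ?_ h7
    exact_mod_cast h6
  · obtain ⟨c, C, hc, hC, h⟩ := Pool.Agent.N430.RT.main_rt 3 2 (by omega) (by decide) (by omega)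
      (κ := 7) (by norm_num)
    refine ⟨c, C, hc, hC, fun F _ _ h2 d hd R hR => ?_⟩
    have : Fintype F := Fintype.ofFinite F
    set fam : degreeLT F (2 * d) → F[X][X] := fun b => X ^ 3 + Polynomial.C (X ^ (4 * d) * (b : F[X])) with hfam
    have hmon : ∀ b, (fam b).Monic ∧ (fam b).natDegree = 3 := by
      intro b
      rw [hfam]
      exact ⟨monic_X_pow_add_C _ (by norm_num), natDegree_X_pow_add_C⟩
    have : Finite (degreeLT F (2 * d)) := Finite.of_equiv _ (degreeLTEquiv F (2 * d)).toEquiv.symm
    let _ := Fintype.ofFinite (degreeLT F (2 * d))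
    set U : Finset (F[X] × F[X]) := Finset.univ.biUnion fun b : degreeLT F (2 * d) =>
      (Pool.Agent.N430.RT.many F (4 * d) (fam b) 2 7 1 R).image fun v =>
        ((v.1 : F[X]), (v.2 : F[X]) + X ^ (4 * d) * (b : F[X])) with hU
    have hs : largeRank F d R ⊆ (U : Set (F[X] × F[X])) := by
      rintro ⟨A, B⟩ ⟨h3, h4, E, hE⟩
      have hXm : (X ^ (4 * d) : F[X]).Monic := monic_X_pow _
      have hdiv : B %ₘ X ^ (4 * d) + X ^ (4 * d) * (B /ₘ X ^ (4 * d)) = B := modByMonic_add_div B _
      have hb1 : B %ₘ X ^ (4 * d) ∈ degreeLT F (4 * d) := by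
        rw [mem_degreeLT]
        have := degree_modByMonic_lt B hXm
        rwa [degree_X_pow] at this
      have hb2 : B /ₘ X ^ (4 * d) ∈ degreeLT F (2 * d) := by
        rw [mem_degreeLT]
        by_cases h0 : B /ₘ X ^ (4 * d) = 0
        · rw [h0, degree_zero]
          exact WithBot.bot_lt_coe _
        · have hB0 : B ≠ 0 := by
            rintro rfl
            exact h0 (zero_divByMonic _)
          rw [degree_eq_natDegree h0]
          have h5 : (B /ₘ X ^ (4 * d)).natDegree = B.natDegree - 4 * d := by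
            rw [natDegree_divByMonic B hXm, natDegree_X_pow]
          have h6 : B.natDegree < 6 * d := by
            have h7 : B.degree < ((6 * d : ℕ) : WithBot ℕ) := by
              push_cast
              exact h4
            exact (natDegree_lt_iff_degree_lt hB0).2 h7
          rw [h5]
          exact_mod_cast (by omega : B.natDegree - 4 * d < 2 * d)
      rw [Finset.mem_coe, hU, Finset.mem_biUnion]
      refine ⟨⟨_, hb2⟩, Finset.mem_univ _, ?_⟩
      rw [Finset.mem_image]
      have h3' : A.degree < ((4 * d : ℕ) : WithBot ℕ) := by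
        push_cast
        exact h3
      refine ⟨(⟨A, mem_degreeLT.2 h3'⟩, ⟨_, hb1⟩), ?_, ?_⟩
      · unfold Pool.Agent.N430.RT.many
        rw [Finset.mem_filter]
        have hBeq : B = B %ₘ X ^ (4 * d) + X ^ (4 * d) * (B /ₘ X ^ (4 * d)) := hdiv.symm
        have hK : (28 * (d : ℝ)) = 7 * ((4 * d : ℕ) : ℝ) := by
          push_cast
          ring
        have E1 : Pool.Agent.N430.RT.ED (X ^ 3 : F[X][X]) A B (2 * 1) (28 * d) := E.toED
        have key : ∃ E' : Pool.Agent.N430.RT.ED (fam ⟨_, hb2⟩) A (B %ₘ X ^ (4 * d)) 2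
            (7 * ((4 * d : ℕ) : ℝ)), ∃ hD : E'.D = E.D, ∀ i, E'.α i = E.α (Fin.cast hD i) := by
          have h8 : ∀ B' : F[X], B = B' → ∀ K' : ℝ, 28 * (d : ℝ) = K' →
              ∃ E' : Pool.Agent.N430.RT.ED (X ^ 3 : F[X][X]) A B' 2 K',
                ∃ hD : E'.D = E.D, ∀ i, E'.α i = E.α (Fin.cast hD i) := by
            rintro B' rfl K' rfl
            exact ⟨E.toED, rfl, fun i => rfl⟩
          obtain ⟨E', hD, hα⟩ := h8 _ hBeq _ hK
          exact ⟨E'.shift, hD, hα⟩
        obtain ⟨E', hD, hα⟩ := key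
        refine ⟨Finset.mem_univ _, E', Finset.univ.filter fun i => E'.α i = Nat.card F,
          fun i hi => ?_, ?_⟩
        · have h8 := (Finset.mem_filter.1 hi).2
          have hq : (Fintype.card F : ℂ) ≠ 0 := by exact_mod_cast Fintype.card_ne_zero
          rw [h8, Nat.card_eq_fintype_card, div_self hq, sub_self, norm_zero]
          positivity
        · have e : {i | E.α i = Nat.card F} = ((Finset.univ.filter fun i =>
              E.α i = Nat.card F : Finset (Fin E.D)) : Set (Fin E.D)) := by
            ext i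
            simp
          rw [e, Set.ncard_coe_finset] at hE
          refine hE.trans ?_
          refine Finset.card_le_card_of_injOn (fun i => Fin.cast hD.symm i) ?_ ?_
          · intro i hi
            rw [Finset.mem_coe, Finset.mem_filter] at hi ⊢
            refine ⟨Finset.mem_univ _, ?_⟩
            rw [hα]
            exact hi.2
          · intro i _ j _ hij
            exact Fin.cast_injective _ hij
      · simp only [hdiv]
    refine ⟨(Finset.finite_toSet _).subset hs, ?_⟩
    have h5 := Set.ncard_le_ncard hs (Finset.finite_toSet _)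
    rw [Set.ncard_coe_finset] at h5
    have hcard : (Fintype.card (degreeLT F (2 * d)) : ℝ) = (Nat.card F : ℝ) ^ (2 * d) := by
      rw [← Nat.card_eq_fintype_card, Nat.card_congr (degreeLTEquiv F (2 * d)).toEquiv,
        Nat.card_eq_fintype_card, Fintype.card_fun, Fintype.card_fin, Nat.card_eq_fintype_card]
      push_cast
      rfl
    have h6 : (U.card : ℝ) ≤ ∑ b : degreeLT F (2 * d),
        C * (R : ℝ) ^ (-(c * R)) * (Nat.card F : ℝ) ^ (2 * (4 * d)) := by
      have h7 : U.card ≤ ∑ b : degreeLT F (2 * d),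
          (Pool.Agent.N430.RT.many F (4 * d) (fam b) 2 7 1 R).card := by
        rw [hU]
        exact Finset.card_biUnion_le.trans (Finset.sum_le_sum fun b _ => Finset.card_image_le)
      have h8 : (U.card : ℝ) ≤ ∑ b : degreeLT F (2 * d),
          ((Pool.Agent.N430.RT.many F (4 * d) (fam b) 2 7 1 R).card : ℝ) := by exact_mod_cast h7
      refine h8.trans (Finset.sum_le_sum fun b _ => ?_)
      have h9 := h F h2 (4 * d) (by omega) (fam b) (hmon b).1 (hmon b).2 1 (by simp) R hR
      rw [Nat.card_eq_fintype_card]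
      exact h9
    rw [Finset.sum_const, Finset.card_univ, nsmul_eq_mul, hcard] at h6
    have h7 : ((largeRank F d R).ncard : ℝ) ≤ (U.card : ℝ) := by exact_mod_cast h5
    refine h7.trans (h6.trans (le_of_eq ?_))
    have h8 : (Nat.card F : ℝ) ^ (10 * d) = (Nat.card F : ℝ) ^ (2 * d) * (Nat.card F : ℝ) ^ (2 * (4 * d)) := by
      rw [← pow_add]
      congr 1
      ring
    rw [h8]
    ring

end Pool.Agent.Results.MP_81dc49_nt.TailOfRanks
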