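import Pool.Agent.N666.TB.NF

/-!
# The original products of Birch and Swinnerton-Dyer for thin families over a number field

Let `K` be a number field of degree `n` with a basis `B_1, …, B_n` of the ring of integers.  For
`α, β ∈ 𝓞 K` let `E_{α,β}` be the curve `y² = x³ + α x + β` over `K`.  The conjecture of Birch and
Swinnerton-Dyer in its original form predicts the growth of the product of the numbers
`#E(𝓞 K ⧸ v) / N v` over the prime ideals `v` with `N v ≤ x`, the inverse of the truncated Euler product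
at the central point `s = 1`, in terms of the rank of `E(K)`.

The curves are thin: `α_m = ∑ ⌊P_j(m)⌋ B_j`, `β_m = ∑ ⌊Q_j(m)⌋ B_j`, where the `P_j`, `Q_j` are generalised
polynomials (finite sums of real powers with real coefficients) whose `2 n` leading exponents are
positive, not integers and different from each other, with positive leading coefficients; `m` runs
through the integers, or the primes, of `(N, 2 N]`. Example, `K = ℚ(i)`:
`y² = x³ + (⌊m^√2⌋ + ⌊m^√3⌋ i) x + ⌊m^√5⌋ + ⌊m^π⌋ i`, `N` curves in a box of about `N^(8.5)` curves.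

The theorem: for almost all these `m` the product is `(log x)^(1/2 + o(1))`, for *all* `x` up to a power of
`N`, with an explicit error term and with a bound for the number of the exceptions.  The product is taken
over all prime ideals, of all degrees, including the ramified ones and those of bad reduction.
-/

set_option autoImplicit false

namespace Pool.Agent.Results.MP_81dc49_nt.ThinNumberFields

open NumberField IsDedekindDomain

/-- The number of the points of the projective curve `y² = x³ + α x + β` over the residue field of the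
nonzero prime ideal `v`: the affine points and one point at infinity. -/
noncomputable def pointCount {K : Type} [Field K] [NumberField K] (v : HeightOneSpectrum (𝓞 K))
    (α β : 𝓞 K) : ℕ :=
  Nat.card {P : (𝓞 K ⧸ v.asIdeal) × (𝓞 K ⧸ v.asIdeal) //
    P.2 ^ 2 = P.1 ^ 3 + Ideal.Quotient.mk v.asIdeal α * P.1 + Ideal.Quotient.mk v.asIdeal β} + 1

/-- The prime ideals of norm at most `x`. -/
def primesUpTo (K : Type) [Field K] [NumberField K] (x : ℕ) : Set (HeightOneSpectrum (𝓞 K)) :=
  {v | Ideal.absNorm v.asIdeal ≤ x}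

/-- The product of the numbers `#E(𝓞 K ⧸ v) / N v` over the prime ideals of norm at most `x`. -/
noncomputable def originalProduct {K : Type} [Field K] [NumberField K] (α β : 𝓞 K) (x : ℕ) : ℝ :=
  ∏ᶠ v ∈ primesUpTo K x, ((pointCount v α β : ℝ) / Ideal.absNorm v.asIdeal)

/-- `c` is the largest exponent of the generalised polynomial `∑ a_x t ^ x`; it is positive and not an
integer and has a positive coefficient. -/
def Admissible (F : Finset ℝ) (a : ℝ → ℝ) (c : ℝ) : Prop :=
  c ∈ F ∧ (∀ x ∈ F, x ≤ c) ∧ 0 < c ∧ (∀ m : ℕ, c ≠ m) ∧ 0 < a c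

/-- The integer part of the value at `m` of the generalised polynomial `∑ a_x t ^ x`, `x ∈ F`. -/
noncomputable def floorAt (F : Finset ℝ) (a : ℝ → ℝ) (m : ℕ) : ℤ := ⌊∑ x ∈ F, a x * (m : ℝ) ^ x⌋

/-- The coefficient `∑ ⌊P_j(m)⌋ B_j` of the curve. -/
noncomputable def coefficient {K : Type} [Field K] [NumberField K] {n : ℕ}
    (B : Module.Basis (Fin n) ℤ (𝓞 K)) (F : Fin n → Finset ℝ) (a : Fin n → ℝ → ℝ) (m : ℕ) : 𝓞 K :=
  ∑ j, floorAt (F j) (a j) m • B j

/-- The logarithm of the product of the curve `y² = x³ + α x + β` differs from `(1/2) log log x` by more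
than `l (log log x)^(1/2) (1 + log log log x)^ε`, for an integer `x ≥ 16` with `x ^ k ≤ N`. -/
def Exceptional {K : Type} [Field K] [NumberField K] (α β : 𝓞 K) (ε l : ℝ) (k N : ℕ) : Prop :=
  ∃ x : ℕ, 16 ≤ x ∧ x ^ k ≤ N ∧
    l * Real.log (Real.log x) ^ (1 / 2 : ℝ) * (1 + Real.log (Real.log (Real.log x))) ^ ε <
      |Real.log (originalProduct α β x) - 1 / 2 * Real.log (Real.log x)|

/-- **The original products of Birch and Swinnerton-Dyer for almost all members of a thin family over a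
number field.** -/
theorem result (K : Type) [Field K] [NumberField K] {n : ℕ} (B : Module.Basis (Fin n) ℤ (𝓞 K))
    (F G : Fin n → Finset ℝ) (a b : Fin n → ℝ → ℝ) (c d : Fin n → ℝ)
    (hF : ∀ j, Admissible (F j) (a j) (c j)) (hG : ∀ j, Admissible (G j) (b j) (d j))
    (hc : Function.Injective c) (hd : Function.Injective d) (hcd : ∀ i j, c i ≠ d j) :
    -- the definitions make sense
    (∀ x : ℕ, (primesUpTo K x).Finite) ∧ (∀ (α β : 𝓞 K) (x : ℕ), 0 < originalProduct α β x) ∧
    (∀ (v : HeightOneSpectrum (𝓞 K)) (α β : 𝓞 K),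
      Finite {P : (𝓞 K ⧸ v.asIdeal) × (𝓞 K ⧸ v.asIdeal) //
        P.2 ^ 2 = P.1 ^ 3 + Ideal.Quotient.mk v.asIdeal α * P.1 + Ideal.Quotient.mk v.asIdeal β}) ∧
    -- the law
    ∀ ε A : ℝ, 0 < ε → 0 < A → ∃ (k : ℕ) (C : ℝ) (N₀ : ℕ), 0 < k ∧
      ∀ N : ℕ, N₀ ≤ N → ∀ l : ℝ, 1 ≤ l →
        ({m : ℕ | N < m ∧ m ≤ 2 * N ∧
          Exceptional (coefficient B F a m) (coefficient B G b m) ε l k N}.ncard : ℝ) ≤
            C * l ^ (-A) * N ∧
        ({m : ℕ | N < m ∧ m ≤ 2 * N ∧ m.Prime ∧
          Exceptional (coefficient B F a m) (coefficient B G b m) ε l k N}.ncard : ℝ) ≤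
            C * l ^ (-A) * ({m : ℕ | N < m ∧ m ≤ 2 * N ∧ m.Prime}.ncard : ℝ) := by
  classical
  have hfac : ∀ (v : HeightOneSpectrum (𝓞 K)) (α β : 𝓞 K),
      0 < (pointCount v α β : ℝ) / Ideal.absNorm v.asIdeal := by
    intro v α β
    have h1 : 0 < pointCount v α β := Nat.succ_pos _
    have h2 : 0 < Ideal.absNorm v.asIdeal := by
      have h3 := (Pool.Agent.H921R2.TatePole.nm_eq v).1
      have h4 : Ideal.absNorm v.asIdeal = _ := h3
      rw [h4]
      exact pow_pos (Pool.Agent.H921R2.TatePole.below v).2.pos _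
    positivity
  have hprod : ∀ (α β : 𝓞 K) (x : ℕ), originalProduct α β x =
      ∏ v ∈ Pool.Agent.N430.BP.Tx K x, ((pointCount v α β : ℝ) / Ideal.absNorm v.asIdeal) := by
    intro α β x
    unfold originalProduct
    have hfin : (primesUpTo K x).Finite := Pool.Agent.N430.BP.fin_T K x
    rw [finprod_mem_eq_finite_toFinset_prod _ hfin]
    rfl
  refine ⟨fun x => Pool.Agent.N430.BP.fin_T K x, fun α β x => ?_, fun v α β => ?_, ?_⟩
  · rw [hprod]
    exact Finset.prod_pos fun v _ => hfac v α β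
  · have := Pool.Agent.N430.BP.fin_res v
    infer_instance
  intro ε A hε hA
  have hlog : ∀ (α β : 𝓞 K) (x : ℕ), Real.log (originalProduct α β x) =
      ∑ v ∈ Pool.Agent.N430.BP.Tx K x, Pool.Agent.N430.BP.lf v α β := by
    intro α β x
    rw [hprod, Real.log_prod fun v _ => (hfac v α β).ne']
    rfl
  have hn : 0 < n := by
    rcases Nat.eq_zero_or_pos n with h0 | h0
    · subst h0
      exfalso
      have h1 : (1 : 𝓞 K) = 0 := by
        have := B.sum_repr (1 : 𝓞 K)
        rw [← this]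
        simp
      exact one_ne_zero h1
    · exact h0
  have : Nonempty (Fin n ⊕ Fin n) := ⟨Sum.inl ⟨0, hn⟩⟩
  set FF : Fin n ⊕ Fin n → Finset ℝ := Sum.elim F G with hFF
  set aa : Fin n ⊕ Fin n → ℝ → ℝ := Sum.elim a b with haa
  set cc : Fin n ⊕ Fin n → ℝ := Sum.elim c d with hcc
  have hadm : ∀ i, cc i ∈ FF i ∧ (∀ t ∈ FF i, t ≤ cc i) ∧ 0 < cc i ∧ (∀ m : ℕ, cc i ≠ m) ∧
      0 < aa i (cc i) := by
    rintro (i | i)
    · exact hF i
    · exact hG i
  have hinj : Function.Injective cc := by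
    rintro (i | i) (j | j) hij
    · exact congrArg _ (hc hij)
    · exact absurd hij (hcd i j)
    · exact absurd hij.symm (hcd j i)
    · exact congrArg _ (hd hij)
  obtain ⟨⟨ρ₁, hρ₁, hS₁⟩, ⟨ρ₂, hρ₂, hS₂⟩⟩ := Pool.Agent.N666.TM.fl_well hadm hinj
  obtain ⟨k₁, K₁, N₁, hk₁, hK₁, H₁⟩ := Pool.Agent.N666.TB.thin_NF B hρ₁ hS₁ hε hA
  obtain ⟨k₂, K₂, N₂, hk₂, hK₂, H₂⟩ := Pool.Agent.N666.TB.thin_NF B hρ₂ hS₂ hε hA
  refine ⟨max k₁ k₂, max K₁ K₂, max N₁ N₂, by omega, fun N hN l hl => ?_⟩
  have hl0 : 0 < l ^ (-A) := Real.rpow_pos_of_pos (by linarith) _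
  have hrew : ∀ m : ℕ, Exceptional (coefficient B F a m) (coefficient B G b m) ε l (max k₁ k₂) N ↔
      ∃ x : ℕ, 16 ≤ x ∧ x ^ (max k₁ k₂) ≤ N ∧
        l * Pool.Agent.N430.BP.gauge ε x < |∑ v ∈ Pool.Agent.N430.BP.Tx K x,
          Pool.Agent.N430.BP.lf v
            (Pool.Agent.N430.BP.elA B (Pool.Agent.N666.TB.prs (Pool.Agent.N666.TM.fl FF aa m)))
            (Pool.Agent.N430.BP.elB B (Pool.Agent.N666.TB.prs (Pool.Agent.N666.TM.fl FF aa m))) -
            1 / 2 * Real.log (Real.log x)| := by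
    intro m
    unfold Exceptional
    simp only [hlog]
    have eA : Pool.Agent.N430.BP.elA B (Pool.Agent.N666.TB.prs (Pool.Agent.N666.TM.fl FF aa m)) =
        coefficient B F a m := rfl
    have eB : Pool.Agent.N430.BP.elB B (Pool.Agent.N666.TB.prs (Pool.Agent.N666.TM.fl FF aa m)) =
        coefficient B G b m := rfl
    rw [eA, eB]
    unfold Pool.Agent.N430.BP.gauge
    constructor
    · rintro ⟨x, h1, h2, h3⟩
      exact ⟨x, h1, h2, by rw [← mul_assoc]; exact h3⟩
    · rintro ⟨x, h1, h2, h3⟩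
      exact ⟨x, h1, h2, by rw [← mul_assoc] at h3; exact h3⟩
  constructor
  · have h1 := H₁ (max k₁ k₂) (le_max_left _ _) N (by omega) l hl
    set E := (Finset.Ioc N (2 * N)).filter fun m : ℕ => ∃ x : ℕ, 16 ≤ x ∧ x ^ (max k₁ k₂) ≤ N ∧
        l * Pool.Agent.N430.BP.gauge ε x < |∑ v ∈ Pool.Agent.N430.BP.Tx K x,
          Pool.Agent.N430.BP.lf v
            (Pool.Agent.N430.BP.elA B (Pool.Agent.N666.TB.prs (Pool.Agent.N666.TM.fl FF aa m)))
            (Pool.Agent.N430.BP.elB B (Pool.Agent.N666.TB.prs (Pool.Agent.N666.TM.fl FF aa m))) -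
            1 / 2 * Real.log (Real.log x)| with hE
    have e : {m : ℕ | N < m ∧ m ≤ 2 * N ∧
        Exceptional (coefficient B F a m) (coefficient B G b m) ε l (max k₁ k₂) N} = (E : Set ℕ) := by
      ext m
      rw [Finset.mem_coe, hE, Finset.mem_filter, Finset.mem_Ioc, ← hrew m]
      show (N < m ∧ m ≤ 2 * N ∧ _) ↔ _
      tauto
    rw [e, Set.ncard_coe_finset]
    refine h1.trans ?_
    rw [Nat.card_Ioc, show 2 * N - N = N by omega]
    gcongr
    exact le_max_left _ _
  · have h1 := H₂ (max k₁ k₂) (le_max_right _ _) N (by omega) l hl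
    set E := (Pool.Agent.N666.VE.primes N).filter fun m : ℕ => ∃ x : ℕ, 16 ≤ x ∧ x ^ (max k₁ k₂) ≤ N ∧
        l * Pool.Agent.N430.BP.gauge ε x < |∑ v ∈ Pool.Agent.N430.BP.Tx K x,
          Pool.Agent.N430.BP.lf v
            (Pool.Agent.N430.BP.elA B (Pool.Agent.N666.TB.prs (Pool.Agent.N666.TM.fl FF aa m)))
            (Pool.Agent.N430.BP.elB B (Pool.Agent.N666.TB.prs (Pool.Agent.N666.TM.fl FF aa m))) -
            1 / 2 * Real.log (Real.log x)| with hE
    have e : {m : ℕ | N < m ∧ m ≤ 2 * N ∧ m.Prime ∧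
        Exceptional (coefficient B F a m) (coefficient B G b m) ε l (max k₁ k₂) N} = (E : Set ℕ) := by
      ext m
      rw [Finset.mem_coe, hE, Finset.mem_filter, Pool.Agent.N666.VE.primes, Finset.mem_filter,
        Finset.mem_Ioc, ← hrew m]
      show (N < m ∧ m ≤ 2 * N ∧ _ ∧ _) ↔ _
      tauto
    have e2 : {m : ℕ | N < m ∧ m ≤ 2 * N ∧ m.Prime} =
        ((Pool.Agent.N666.VE.primes N : Finset ℕ) : Set ℕ) := by
      ext m
      rw [Finset.mem_coe, Pool.Agent.N666.VE.primes, Finset.mem_filter, Finset.mem_Ioc]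
      show (N < m ∧ m ≤ 2 * N ∧ _) ↔ _
      tauto
    rw [e, e2, Set.ncard_coe_finset, Set.ncard_coe_finset]
    refine h1.trans ?_
    gcongr
    exact le_max_right _ _

end Pool.Agent.Results.MP_81dc49_nt.ThinNumberFields
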